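import Pool.Agent.X185.CT.UCT

set_option autoImplicit false

/-! The action of a free group on infinite reduced words. -/

namespace Pool.Agent.X185.CT

variable {r : ℕ}

/-- Two consecutive letters are allowed. -/
def Ok (x y : Fin r × Bool) : Prop := x.1 = y.1 → x.2 = y.2

/-- The inverse letter. -/
def linv (x : Fin r × Bool) : Fin r × Bool := (x.1, !x.2)

@[simp] lemma linv_linv (x : Fin r × Bool) : linv (linv x) = x := by simp [linv]

lemma not_ok_iff {x y : Fin r × Bool} : ¬ Ok x y ↔ y = linv x := by
  obtain ⟨a, s⟩ := x
  obtain ⟨b, u⟩ := y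
  unfold Ok linv
  cases s <;> cases u <;> simp [eq_comm]

lemma not_ok_linv (x : Fin r × Bool) : ¬ Ok (linv x) x := not_ok_iff.2 (by simp)

/-- Remove the first letter. -/
def tl (p : Bdy r) : Bdy r := ⟨fun n => p.1 (n + 1), fun n => p.2 (n + 1)⟩

lemma tl_apply (p : Bdy r) (n : ℕ) : (tl p).1 n = p.1 (n + 1) := rfl

/-- Add a letter. -/
def cn (x : Fin r × Bool) (p : Bdy r) (h : Ok x (p.1 0)) : Bdy r :=
  ⟨fun n => Nat.casesOn n x p.1, fun n => by
    cases n with
    | zero => exact h
    | succ n => exact p.2 n⟩

lemma cn_zero (x : Fin r × Bool) (p : Bdy r) (h : Ok x (p.1 0)) : (cn x p h).1 0 = x := rfl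
lemma cn_succ (x : Fin r × Bool) (p : Bdy r) (h : Ok x (p.1 0)) (n : ℕ) :
    (cn x p h).1 (n + 1) = p.1 n := rfl

lemma Bdy.ext' {p q : Bdy r} (h : ∀ n, p.1 n = q.1 n) : p = q := Subtype.ext (funext h)

open Classical in
/-- The action of a letter. -/
noncomputable def a1 (x : Fin r × Bool) (p : Bdy r) : Bdy r :=
  if h : Ok x (p.1 0) then cn x p h else tl p

lemma a1_ok {x : Fin r × Bool} {p : Bdy r} (h : Ok x (p.1 0)) : a1 x p = cn x p h := dif_pos h
lemma a1_not {x : Fin r × Bool} {p : Bdy r} (h : ¬ Ok x (p.1 0)) : a1 x p = tl p := dif_neg h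

lemma a1_linv (x : Fin r × Bool) (p : Bdy r) : a1 (linv x) (a1 x p) = p := by
  by_cases h : Ok x (p.1 0)
  · rw [a1_ok h, a1_not (by rw [cn_zero]; exact not_ok_linv x)]
    apply Bdy.ext'
    intro n
    rw [tl_apply, cn_succ]
  · rw [a1_not h]
    have h0 := not_ok_iff.1 h
    have h1 : Ok (linv x) ((tl p).1 0) := by
      rw [← h0]; exact p.2 0
    rw [a1_ok h1]
    apply Bdy.ext'
    intro n
    cases n with
    | zero => rw [cn_zero, h0]
    | succ n => rw [cn_succ, tl_apply]

/-- A letter as a permutation of the boundary. -/
noncomputable def gP (i : Fin r) : Equiv.Perm (Bdy r) where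
  toFun := a1 (i, true)
  invFun := a1 (i, false)
  left_inv p := a1_linv (i, true) p
  right_inv p := a1_linv (i, false) p

/-- The action of the free group on its boundary. -/
noncomputable instance : MulAction (FreeGroup (Fin r)) (Bdy r) :=
  MulAction.compHom (Bdy r) (FreeGroup.lift gP : FreeGroup (Fin r) →* Equiv.Perm (Bdy r))

lemma smul_mk_single (x : Fin r × Bool) (p : Bdy r) : FreeGroup.mk [x] • p = a1 x p := by
  show (FreeGroup.lift gP (FreeGroup.mk [x])) p = _
  obtain ⟨i, s⟩ := x
  rw [FreeGroup.lift_mk]
  cases s
  · simp; rfl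
  · simp; rfl

lemma smul_mk_cons (x : Fin r × Bool) (L : List (Fin r × Bool)) (p : Bdy r) :
    FreeGroup.mk (x :: L) • p = a1 x (FreeGroup.mk L • p) := by
  have : FreeGroup.mk (x :: L) = FreeGroup.mk [x] * FreeGroup.mk L := by
    rw [FreeGroup.mul_mk]; rfl
  rw [this, mul_smul, smul_mk_single]

/-- Concatenation of a list and an infinite word, as a function. -/
def cat (L : List (Fin r × Bool)) (p : ℕ → Fin r × Bool) (n : ℕ) : Fin r × Bool :=
  if h : n < L.length then L[n] else p (n - L.length)

lemma cat_lt {L : List (Fin r × Bool)} {p : ℕ → Fin r × Bool} {n : ℕ} (h : n < L.length) :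
    cat L p n = L[n] := dif_pos h

lemma cat_ge {L : List (Fin r × Bool)} {p : ℕ → Fin r × Bool} {n : ℕ} (h : L.length ≤ n) :
    cat L p n = p (n - L.length) := dif_neg (by omega)

/-- The action of a reduced word without cancellation. -/
lemma smul_cat (L : List (Fin r × Bool)) (hL : FreeGroup.IsReduced L) (p : Bdy r)
    (hj : ∀ x ∈ L.getLast?, Ok x (p.1 0)) (n : ℕ) :
    (FreeGroup.mk L • p).1 n = cat L p.1 n := by
  induction L generalizing n with
  | nil =>
    have : FreeGroup.mk ([] : List (Fin r × Bool)) = 1 := rfl
    rw [this, one_smul, cat_ge (by simp)]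
    simp
  | cons x L ih =>
    rw [smul_mk_cons]
    have hL' : FreeGroup.IsReduced L := by
      unfold FreeGroup.IsReduced at hL ⊢
      exact hL.tail
    have ih' := ih hL' (by
      intro y hy
      apply hj
      cases L with
      | nil => simp at hy
      | cons z L => simpa using hy)
    have hok : Ok x ((FreeGroup.mk L • p).1 0) := by
      rw [ih' 0]
      cases L with
      | nil =>
        rw [cat_ge (by simp)]
        exact hj x (by simp)
      | cons z L =>
        rw [cat_lt (by simp)]
        unfold FreeGroup.IsReduced at hL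
        rw [List.isChain_cons_cons] at hL
        exact hL.1
    rw [a1_ok hok]
    cases n with
    | zero => rw [cn_zero, cat_lt (by simp)]; rfl
    | succ n =>
      rw [cn_succ, ih' n]
      rcases lt_or_ge n L.length with h | h
      · rw [cat_lt h, cat_lt (by simpa using h)]; rfl
      · rw [cat_ge h, cat_ge (by simpa using h)]
        congr 1
        simp

/-- The action of a reduced word: cancellation happens only along the common prefix of the
inverse and the point. -/
lemma smul_cancel (L : List (Fin r × Bool)) (hL : FreeGroup.IsReduced L) (p : Bdy r) :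
    ∃ j ≤ L.length, (∀ l (hl : l < j) (hl' : L.length - 1 - l < L.length),
        p.1 l = linv (L[L.length - 1 - l])) ∧
      ∀ n (hn : n < L.length - j) (hn' : n < L.length), (FreeGroup.mk L • p).1 n = L[n] := by
  induction L using List.reverseRecOn generalizing p with
  | nil => exact ⟨0, by simp, by simp, by simp⟩
  | append_singleton L x ih =>
    have hL' : FreeGroup.IsReduced L := by
      unfold FreeGroup.IsReduced at hL ⊢
      exact (List.isChain_append.1 hL).1
    by_cases h : Ok x (p.1 0)
    · refine ⟨0, by omega, by omega, fun n hn hn' => ?_⟩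
      rw [smul_cat _ hL p (by
        intro y hy
        simp at hy
        rw [← hy]; exact h), cat_lt hn']
    · have e : FreeGroup.mk (L ++ [x]) • p = FreeGroup.mk L • (tl p) := by
        rw [← FreeGroup.mul_mk, mul_smul, smul_mk_single, a1_not h]
      obtain ⟨j, hj1, hj2, hj3⟩ := ih hL' (tl p)
      refine ⟨j + 1, by simp; omega, ?_, ?_⟩
      · intro l hl hl'
        cases l with
        | zero =>
          rw [not_ok_iff.1 h]
          congr 1
          simp
        | succ l =>
          have h1 := hj2 l (by omega) (by omega)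
          rw [tl_apply] at h1
          rw [h1]
          congr 1
          simp only [List.length_append, List.length_singleton]
          have e1 : L.length + 1 - 1 - (l + 1) = L.length - 1 - l := by omega
          simp only [e1]
          rw [List.getElem_append_left]
      · intro n hn hn'
        simp only [List.length_append, List.length_singleton] at hn hn'
        have h1 := hj3 n (by omega) (by omega)
        rw [e, h1, List.getElem_append_left]

end Pool.Agent.X185.CT
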