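import Pool.Agent.X185.RH.ZSp

set_option autoImplicit false

/-! Convergence property and the non-conical point. -/

namespace Pool.Agent.X185.CT

open Pool.Agent.H322R3.Hyp Filter Topology

variable {r : ℕ}

/-- The sequence of elements converges to a boundary point and so do the inverses. -/
lemma exists_conv (h : ℕ → FreeGroup (Fin r)) (hinj : Function.Injective h) :
    ∃ (φ : ℕ → ℕ) (c b : Bdy r), StrictMono φ ∧ TendsTo (fun k => h (φ k)) c ∧
      TendsTo (fun k => (h (φ k))⁻¹) b := by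
  -- lengths tend to infinity
  have hfin : ∀ k : ℕ, {w : FreeGroup (Fin r) | w.toWord.length ≤ k}.Finite := by
    intro k
    have h1 : {L : List (Fin r × Bool) | L.length ≤ k}.Finite := List.finite_length_le _ k
    exact Set.Finite.preimage FreeGroup.toWord_injective.injOn h1
  have hev : ∀ k : ℕ, ∃ N, ∀ n, N ≤ n → k ≤ (h n).toWord.length := by
    intro k
    have h1 : {n : ℕ | (h n).toWord.length ≤ k}.Finite :=
      (hfin k).preimage hinj.injOn
    obtain ⟨N, hN⟩ := h1.bddAbove
    refine ⟨N + 1, fun n hn => ?_⟩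
    by_contra hlt
    have := hN (show n ∈ {n : ℕ | (h n).toWord.length ≤ k} from by
      show (h n).toWord.length ≤ k; omega)
    omega
  -- a first subsequence with length at least the index
  obtain ⟨φ0, hφ0, hφ0'⟩ : ∃ φ0 : ℕ → ℕ, StrictMono φ0 ∧ ∀ k, k ≤ (h (φ0 k)).toWord.length := by
    choose N hN using hev
    refine ⟨fun k => k + ∑ j ∈ Finset.range (k + 1), N j, ?_, fun k => ?_⟩
    · apply strictMono_nat_of_lt_succ
      intro k
      rw [Finset.sum_range_succ _ (k + 1)]
      omega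
    · apply hN
      have : N k ≤ ∑ j ∈ Finset.range (k + 1), N j :=
        Finset.single_le_sum (fun _ _ => Nat.zero_le _) (Finset.mem_range.2 (by omega))
      show N k ≤ k + ∑ j ∈ Finset.range (k + 1), N j
      omega
  obtain ⟨c, ψ1, hψ1, hc⟩ := exists_limit_word (fun k => (h (φ0 k)).toWord) hφ0'
    (fun k => FreeGroup.isReduced_toWord)
  obtain ⟨b, ψ2, hψ2, hb⟩ := exists_limit_word (fun k => ((h (φ0 (ψ1 k)))⁻¹).toWord)
    (fun k => by
      have e : ((h (φ0 (ψ1 k)))⁻¹).toWord.length = (h (φ0 (ψ1 k))).toWord.length := by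
        rw [FreeGroup.toWord_inv]; simp [FreeGroup.invRev]
      rw [e]
      exact (hψ1.id_le k).trans (hφ0' _))
    (fun k => FreeGroup.isReduced_toWord)
  refine ⟨fun k => φ0 (ψ1 (ψ2 k)), c, b, (hφ0.comp hψ1).comp hψ2, ?_, hb⟩
  intro K
  obtain ⟨N, hN⟩ := hc K
  exact ⟨N, fun k hk => hN _ (hk.trans (hψ2.id_le k))⟩

/-- Elements close to `c` with inverses close to `b` push points away from `b` close to `c`. -/
lemma push {w : FreeGroup (Fin r)} {c b p : Bdy r} {K k0 : ℕ} (hc : preL c (K + k0) <+: w.toWord)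
    (hb : preL b k0 <+: (w⁻¹).toWord) (hp : ¬ ∀ j < k0, p.1 j = b.1 j) :
    ∀ j < K, (w • p).1 j = c.1 j := by
  obtain ⟨j, hj1, hj2, hj3⟩ := smul_cancel w.toWord FreeGroup.isReduced_toWord p
  rw [FreeGroup.mk_toWord] at hj3
  have hlen := hc.length_le
  rw [length_preL] at hlen
  have hjk : j < k0 := by
    by_contra hge
    push Not at hge
    apply hp
    intro l hl
    have h1 := hj2 l (by omega) (by omega)
    rw [h1]
    -- the letter of the inverse
    have h2 := hb
    rw [List.prefix_iff_eq_take, length_preL] at h2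
    have h3 : (preL b k0)[l]? = some (b.1 l) := by simp [preL, hl]
    rw [h2, List.getElem?_take_of_lt hl, FreeGroup.toWord_inv] at h3
    unfold FreeGroup.invRev at h3
    rw [List.getElem?_reverse (by simp; omega)] at h3
    simp only [List.length_map, List.getElem?_map] at h3
    rw [List.getElem?_eq_getElem (by omega)] at h3
    simp only [Option.map_some, Option.some.injEq] at h3
    rw [← h3]
    rfl
  intro n hn
  have h1 := hj3 n (by omega) (by omega)
  rw [h1]
  have h2 := hc
  rw [List.prefix_iff_eq_take, length_preL] at h2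
  have hn' : n < K + k0 := by omega
  have h3 : (preL c (K + k0))[n]? = some (c.1 n) := by simp [preL, hn']
  rw [h2, List.getElem?_take_of_lt (by omega), List.getElem?_eq_getElem (by omega)] at h3
  exact Option.some.inj h3

/-- The action on `Z` is a convergence action, with explicit limits. -/
lemma conv_Z {h : ℕ → FreeGroup (Fin 3)} {c b : Bdy 3} (hc : TendsTo h c)
    (hb : TendsTo (fun k => (h k)⁻¹) b) (K : Set Z) (hK : IsCompact K) (hbK : πZ b ∉ K)
    (U : Set Z) (hU : U ∈ 𝓝 (πZ c)) : ∀ᶠ k in atTop, ∀ x ∈ K, h k • x ∈ U := by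
  obtain ⟨ε, hε, hεU⟩ := Metric.mem_nhds_iff.1 hU
  obtain ⟨m, hm⟩ := exists_pow_lt_of_lt_one hε (show (1 / 2 : ℝ) < 1 by norm_num)
  -- distance from `b`
  obtain ⟨k0, hk0⟩ : ∃ k0 : ℕ, ∀ x ∈ K, (1 / 2 : ℝ) ^ k0 < dist x (πZ b) := by
    have hopen : Kᶜ ∈ 𝓝 (πZ b) := hK.isClosed.isOpen_compl.mem_nhds hbK
    obtain ⟨η, hη, hηK⟩ := Metric.mem_nhds_iff.1 hopen
    obtain ⟨k0, hk0⟩ := exists_pow_lt_of_lt_one hη (show (1 / 2 : ℝ) < 1 by norm_num)
    refine ⟨k0, fun x hx => ?_⟩
    by_contra hle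
    push Not at hle
    exact hηK (show x ∈ Metric.ball (πZ b) η from lt_of_le_of_lt hle hk0) hx
  obtain ⟨N1, hN1⟩ := hc (m + k0)
  obtain ⟨N2, hN2⟩ := hb k0
  filter_upwards [eventually_ge_atTop (max N1 N2)] with k hk x hx
  obtain ⟨p, rfl⟩ := πZ_surj x
  rw [πZ_smul]
  apply hεU
  have h1 : ¬ ∀ j < k0, p.1 j = b.1 j := by
    intro H
    have := hk0 _ hx
    rw [dist_πZ] at this
    have h2 := dZ_le_of_agree H
    linarith
  have h2 := push (hN1 k ((le_max_left _ _).trans hk)) (hN2 k ((le_max_right _ _).trans hk)) h1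
  have h3 : dist (πZ (h k • p)) (πZ c) ≤ (1 / 2 : ℝ) ^ m := by
    rw [dist_πZ]; exact dZ_le_of_agree h2
  exact lt_of_le_of_lt h3 hm

theorem conv_action : IsConvergenceAction (FreeGroup (Fin 3)) Z := by
  intro γ hγ
  obtain ⟨φ, c, b, hφ, hc, hb⟩ := exists_conv γ hγ
  exact ⟨φ, hφ, πZ c, πZ b, fun K hK hbK U hU => conv_Z hc hb K hK hbK U hU⟩

/-- The limit set of an action on a space: limits of sequences of distinct elements, uniformly on
compact subsets of the complement of a point. -/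
def limSet (Γ : Type*) [Group Γ] (X : Type*) [TopologicalSpace X] [MulAction Γ X] : Set X :=
  {c | ∃ (h : ℕ → Γ) (b : X), Function.Injective h ∧ ∀ K : Set X, IsCompact K → b ∉ K →
    ∀ U ∈ 𝓝 c, ∀ᶠ n in atTop, ∀ x ∈ K, h n • x ∈ U}

/-- Conical points. -/
def Conical (Γ : Type*) [Group Γ] {X : Type*} [TopologicalSpace X] [MulAction Γ X] (z : X) : Prop :=
  ∃ (h : ℕ → Γ) (b c : X), b ≠ c ∧ Tendsto (fun n => h n • z) atTop (𝓝 b) ∧
    ∀ y, y ≠ z → Tendsto (fun n => h n • y) atTop (𝓝 c)

lemma limSet_all (z : Z) : z ∈ limSet (FreeGroup (Fin 3)) Z := by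
  obtain ⟨p, rfl⟩ := πZ_surj z
  obtain ⟨φ, c, b, hφ, hc, hb⟩ := exists_conv (pre p) (pre_injective p)
  have hcp : c = p := by
    apply Bdy.ext'
    intro n
    obtain ⟨N, hN⟩ := hc (n + 1)
    have h1 := hN (max N (n + 1)) (le_max_left _ _)
    rw [toWord_pre] at h1
    have := agree_of_prefix h1 n (by omega)
    exact this
  refine ⟨fun k => pre p (φ k), πZ b, (pre_injective p).comp hφ.injective, ?_⟩
  intro K hK hbK U hU
  subst hcp
  exact conv_Z hc hb K hK hbK U hU

/-- Constant words. -/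
def cst (x : Fin r × Bool) : Bdy r := ⟨fun _ => x, fun _ _ => rfl⟩

lemma cst_apply (x : Fin r × Bool) (n : ℕ) : (cst x).1 n = x := rfl

/-- The parabolic point. -/
noncomputable def z0 : Z := πZ (cst (0, true))

lemma z0_eq {p : Bdy 3} (hp : ∀ n, (p.1 n).1 ≠ 2) : πZ p = z0 := by
  unfold z0
  rw [πZ_eq]
  rintro n ⟨h | h, _⟩
  · exact hp n h
  · rw [cst_apply] at h
    simp at h

lemma smul_prefix (w : FreeGroup (Fin r)) (p : Bdy r)
    (hj : ∀ x ∈ w.toWord.getLast?, Ok x (p.1 0)) (n : ℕ) (hn : n < w.toWord.length) :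
    (w • p).1 n = w.toWord[n] := by
  have := smul_cat w.toWord FreeGroup.isReduced_toWord p hj n
  rw [FreeGroup.mk_toWord, cat_lt hn] at this
  exact this

/-- For every `w` one of the two points `c^∞`, `c^{-∞}` is moved close to `w z0`. -/
lemma near_z0 (w : FreeGroup (Fin 3)) : ∃ s : Bool,
    dist (w • πZ (cst (2, s))) (w • z0) ≤ (1 / 2 : ℝ) ^ w.toWord.length := by
  obtain ⟨s, hs⟩ : ∃ s : Bool, ∀ x ∈ w.toWord.getLast?, Ok x ((2 : Fin 3), s) := by
    cases h : w.toWord.getLast? with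
    | none => exact ⟨true, by simp⟩
    | some y =>
      refine ⟨y.2, ?_⟩
      intro x hx
      simp at hx
      subst hx
      intro _
      rfl
  obtain ⟨u, hu⟩ : ∃ u : Bool, ∀ x ∈ w.toWord.getLast?, Ok x ((0 : Fin 3), u) := by
    cases h : w.toWord.getLast? with
    | none => exact ⟨true, by simp⟩
    | some y =>
      refine ⟨y.2, ?_⟩
      intro x hx
      simp at hx
      subst hx
      intro _
      rfl
  refine ⟨s, ?_⟩
  have e : z0 = πZ (cst (0, u)) := (z0_eq (fun n => by rw [cst_apply]; simp)).symm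
  rw [e, πZ_smul, πZ_smul, dist_πZ]
  apply dZ_le_of_agree
  intro j hj
  rw [smul_prefix w _ (by rw [cst_apply]; exact hs) j hj,
    smul_prefix w _ (by rw [cst_apply]; exact hu) j hj]

lemma ne_of_c (s : Bool) : πZ (cst (2, s)) ≠ z0 := by
  intro h
  unfold z0 at h
  rw [πZ_eq] at h
  apply h 0
  refine ⟨Or.inl rfl, fun H => ?_⟩
  have := H 0 le_rfl
  rw [cst_apply, cst_apply] at this
  simp at this

lemma ne_c : πZ (cst (2, true)) ≠ πZ (cst (2, false)) := by
  intro h
  rw [πZ_eq] at h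
  apply h 0
  refine ⟨Or.inl rfl, fun H => ?_⟩
  have := H 0 le_rfl
  rw [cst_apply, cst_apply] at this
  simp at this

theorem z0_not_conical : ¬ Conical (FreeGroup (Fin 3)) z0 := by
  rintro ⟨h, b, c, hbc, hb, hc⟩
  have hc1 := hc _ (ne_of_c true)
  have hc2 := hc _ (ne_of_c false)
  -- the distances stay bounded below
  have hd : 0 < dist c b := dist_pos.2 hbc.symm
  have hcs : ∀ s : Bool, ∀ᶠ n in atTop, dist c b / 2 < dist (h n • πZ (cst (2, s))) (h n • z0) := by
    intro s
    have h1 : Tendsto (fun n => dist (h n • πZ (cst (2, s))) (h n • z0)) atTop (𝓝 (dist c b)) := by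
      cases s
      · exact hc2.dist hb
      · exact hc1.dist hb
    exact h1.eventually_const_lt (by linarith)
  obtain ⟨k, hk⟩ := exists_pow_lt_of_lt_one (half_pos hd) (show (1 / 2 : ℝ) < 1 by norm_num)
  have hlen : ∀ᶠ n in atTop, (h n).toWord.length ≤ k := by
    filter_upwards [hcs true, hcs false] with n h1 h2
    by_contra hlt
    push Not at hlt
    obtain ⟨s, hs⟩ := near_z0 (h n)
    have h3 : (1 / 2 : ℝ) ^ (h n).toWord.length ≤ (1 / 2 : ℝ) ^ k :=
      pow_le_pow_of_le_one (by norm_num) (by norm_num) hlt.le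
    cases s
    · linarith
    · linarith
  -- some value is taken infinitely often
  have hfin : {w : FreeGroup (Fin 3) | w.toWord.length ≤ k}.Finite := by
    have h1 : {L : List (Fin 3 × Bool) | L.length ≤ k}.Finite := List.finite_length_le _ k
    exact Set.Finite.preimage FreeGroup.toWord_injective.injOn h1
  obtain ⟨w, _, hw⟩ : ∃ w ∈ {w : FreeGroup (Fin 3) | w.toWord.length ≤ k},
      ∃ᶠ n in atTop, h n = w := by
    by_contra hcon
    push Not at hcon
    have h1 : ∀ᶠ n in atTop, ∀ w ∈ {w : FreeGroup (Fin 3) | w.toWord.length ≤ k}, h n ≠ w := by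
      rw [hfin.eventually_all]
      intro w hw
      exact hcon w hw
    obtain ⟨n, hn1, hn2⟩ := (h1.and hlen).exists
    exact hn1 (h n) hn2 rfl
  have key : ∀ y : Z, y ≠ z0 → w • y = c := by
    intro y hy
    by_contra hne
    have h1 := hc y hy
    have h2 : ∀ᶠ n in atTop, h n • y ≠ w • y := by
      have : {x : Z | x ≠ w • y} ∈ 𝓝 c := isOpen_ne.mem_nhds (Ne.symm hne)
      exact h1 this
    obtain ⟨n, hn1, hn2⟩ := (hw.and_eventually h2).exists
    exact hn2 (by rw [hn1])
  have h1 := key _ (ne_of_c true)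
  have h2 := key _ (ne_of_c false)
  exact ne_c (MulAction.injective w (h1.trans h2.symm))

end Pool.Agent.X185.CT
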