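import Pool.Agent.X185.RH.Conv

set_option autoImplicit false

/-! The visual metric on the boundary of a free group and a lower bound for a dimension. -/

namespace Pool.Agent.X185.CT

open Pool.Agent.H322R3.Hyp Filter Topology
open scoped ENNReal NNReal

variable {r : ℕ}

open Classical in
/-- The visual distance `a ^ (-n)`, where `n` is the length of the longest common prefix. -/
noncomputable def vd (a : ℝ) (p q : Bdy r) : ℝ :=
  if h : ∃ n, p.1 n ≠ q.1 n then a ^ (-(Nat.find h : ℝ)) else 0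

lemma vd_self (a : ℝ) (p : Bdy r) : vd a p p = 0 := by
  unfold vd
  rw [dif_neg]
  push Not
  exact fun _ => rfl

lemma vd_of_first {a : ℝ} {p q : Bdy r} {n : ℕ} (h1 : ∀ j < n, p.1 j = q.1 j)
    (h2 : p.1 n ≠ q.1 n) : vd a p q = a ^ (-(n : ℝ)) := by
  classical
  have h : ∃ n, p.1 n ≠ q.1 n := ⟨n, h2⟩
  have hn : Nat.find h = n := by
    apply le_antisymm (Nat.find_min' h h2)
    by_contra hlt
    push Not at hlt
    exact Nat.find_spec h (h1 _ hlt)
  unfold vd
  rw [dif_pos h, ← hn]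

lemma vd_comm (a : ℝ) (p q : Bdy r) : vd a p q = vd a q p := by
  by_cases h : p = q
  · rw [h]
  · obtain ⟨n, h1, h2⟩ := exists_first_diff h
    rw [vd_of_first h1 h2, vd_of_first (fun j hj => (h1 j hj).symm) (Ne.symm h2)]

lemma vd_nonneg {a : ℝ} (ha : 1 < a) (p q : Bdy r) : 0 ≤ vd a p q := by
  have ha0 : 0 < a := by linarith
  by_cases h : p = q
  · rw [h, vd_self]
  · obtain ⟨n, h1, h2⟩ := exists_first_diff h
    rw [vd_of_first h1 h2]; positivity

lemma vd_le_of_agree {a : ℝ} (ha : 1 < a) {p q : Bdy r} {m : ℕ} (h : ∀ j < m, p.1 j = q.1 j) :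
    vd a p q ≤ a ^ (-(m : ℝ)) := by
  have ha0 : 0 < a := by linarith
  by_cases hpq : p = q
  · rw [hpq, vd_self]; positivity
  · obtain ⟨n, h1, h2⟩ := exists_first_diff hpq
    rw [vd_of_first h1 h2]
    apply Real.rpow_le_rpow_of_exponent_le ha.le
    have : m ≤ n := by
      by_contra hlt
      exact h2 (h n (by omega))
    have : (m : ℝ) ≤ n := by exact_mod_cast this
    linarith

lemma vd_ultra {a : ℝ} (ha : 1 < a) (p q s : Bdy r) : vd a p s ≤ max (vd a p q) (vd a q s) := by
  by_cases h1 : p = q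
  · rw [h1]; exact le_max_right _ _
  by_cases h2 : q = s
  · rw [h2]; exact le_max_left _ _
  obtain ⟨n, a1, a2⟩ := exists_first_diff h1
  obtain ⟨m, b1, b2⟩ := exists_first_diff h2
  rcases le_total n m with h | h
  · refine le_trans ?_ (le_max_left _ _)
    rw [vd_of_first a1 a2]
    exact vd_le_of_agree ha (fun j hj => (a1 j hj).trans (b1 j (by omega)))
  · refine le_trans ?_ (le_max_right _ _)
    rw [vd_of_first b1 b2]
    exact vd_le_of_agree ha (fun j hj => (a1 j (by omega)).trans (b1 j hj))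

/-- The visual metric on `∂F_r` with parameter `a > 1`, for the Cayley tree of the basis. -/
@[reducible] noncomputable def visMetric (r : ℕ) (a : ℝ) (ha : 1 < a) : MetricSpace (Bdy r) where
  dist := vd a
  dist_self := vd_self a
  dist_comm := vd_comm a
  dist_triangle p q s := by
    have h := vd_ultra ha p q s
    have h1 := vd_nonneg ha p q
    have h2 := vd_nonneg ha q s
    rcases le_max_iff.1 h with h' | h' <;> linarith
  eq_of_dist_eq_zero := by
    intro p q h
    by_contra hne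
    obtain ⟨n, h1, h2⟩ := exists_first_diff hne
    change vd a p q = 0 at h
    rw [vd_of_first h1 h2] at h
    have : 0 < a ^ (-(n : ℝ)) := by
      have : 0 < a := by linarith
      positivity
    linarith

/-- Positive words in the first two letters. -/
def posW : Set (Bdy 3) := {p | ∀ n, p.1 n = (0, true) ∨ p.1 n = (1, true)}

/-- Binary value of a word. -/
noncomputable def bin (p : Bdy 3) : ℝ :=
  Real.ofDigits (b := 2) (fun n => if (p.1 n).1 = 1 then 1 else 0)

lemma bin_le {p q : Bdy 3} {n : ℕ} (h : ∀ j < n, p.1 j = q.1 j) :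
    |bin p - bin q| ≤ (2 : ℝ)⁻¹ ^ n := by
  unfold bin
  have := Real.abs_ofDigits_sub_ofDigits_le (b := 2)
    (x := fun n => if (p.1 n).1 = 1 then 1 else 0)
    (y := fun n => if (q.1 n).1 = 1 then 1 else 0) (n := n) (fun i hi => by rw [h i hi])
  simpa using this

lemma bin_surj : Set.Icc (0 : ℝ) 1 ⊆ bin '' posW := by
  intro x hx
  obtain ⟨d, _, hd⟩ := Real.ofDigits_SurjOn (b := 2) (by norm_num) hx
  refine ⟨⟨fun n => (if d n = 1 then 1 else 0, true), fun n _ => rfl⟩, fun n => ?_, ?_⟩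
  · show ((if d n = 1 then (1 : Fin 3) else 0), true) = _ ∨ _ = _
    by_cases h : d n = 1
    · right
      show ((if d n = 1 then (1 : Fin 3) else 0), true) = _
      rw [if_pos h]
    · left
      rw [if_neg h]
  · unfold bin
    rw [← hd]
    congr 1
    funext n
    show (if (if d n = 1 then (1 : Fin 3) else 0) = 1 then (1 : Fin 2) else 0) = d n
    by_cases h : d n = 1
    · simp [h]
    · have h0 : d n = 0 := by
        have := (d n).isLt
        apply Fin.ext
        have h1 : (d n).val ≠ 1 := fun h' => h (Fin.ext h')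
        show (d n).val = 0
        omega
      simp [h0]

theorem posW_dim (a : ℝ) (ha : 1 < a) :
    letI := visMetric 3 a ha
    0 < dimH posW := by
  letI := visMetric 3 a ha
  show 0 < dimH posW
  have hloga : 0 < Real.log a := Real.log_pos ha
  obtain ⟨s, hs⟩ : ∃ s : ℝ≥0, (s : ℝ) = Real.log 2 / Real.log a :=
    ⟨⟨Real.log 2 / Real.log a, by positivity⟩, rfl⟩
  have hspos : 0 < s := by
    rw [← NNReal.coe_pos, hs]
    positivity
  have ha0 : 0 < a := by linarith
  have hH : HolderWith 1 s bin := by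
    intro p q
    by_cases hpq : p = q
    · rw [hpq]; simp
    obtain ⟨n, h1, h2⟩ := exists_first_diff hpq
    have h3 := bin_le h1
    have h4 : dist p q = a ^ (-(n : ℝ)) := vd_of_first h1 h2
    have h5 : (2 : ℝ)⁻¹ ^ n = (dist p q) ^ (s : ℝ) := by
      rw [h4, hs, ← Real.rpow_mul ha0.le, ← Real.rpow_natCast]
      rw [Real.rpow_def_of_pos (by norm_num), Real.rpow_def_of_pos ha0, Real.log_inv]
      congr 1
      field_simp
    rw [edist_dist, edist_dist, ENNReal.coe_one, one_mul,
      ENNReal.ofReal_rpow_of_nonneg dist_nonneg (NNReal.coe_nonneg s)]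
    apply ENNReal.ofReal_le_ofReal
    rw [Real.dist_eq, ← h5]
    exact h3
  have h1 := hH.dimH_image_le hspos posW
  have h2 : dimH (Set.Icc (0 : ℝ) 1) ≤ dimH (bin '' posW) := dimH_mono bin_surj
  have h3 : dimH (Set.Icc (0 : ℝ) 1) = 1 := by
    rw [Real.dimH_of_nonempty_interior]
    · simp
    · rw [interior_Icc]; exact ⟨1 / 2, by norm_num, by norm_num⟩
  rw [h3] at h2
  have h4 := h2.trans h1
  by_contra h0
  have h5 : dimH posW = 0 := by
    rw [← nonpos_iff_eq_zero]; exact not_lt.1 h0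
  rw [h5] at h4
  simp at h4

lemma posW_z0 {p : Bdy 3} (hp : p ∈ posW) : πZ p = z0 := by
  apply z0_eq
  intro n
  rcases hp n with h | h <;> rw [h] <;> simp

lemma continuous_πZ (a : ℝ) (ha : 1 < a) :
    letI := visMetric 3 a ha
    Continuous πZ := by
  letI := visMetric 3 a ha
  show Continuous πZ
  have ha0 : 0 < a := by linarith
  rw [Metric.continuous_iff]
  intro p ε hε
  obtain ⟨m, hm⟩ := exists_pow_lt_of_lt_one hε (show (1 / 2 : ℝ) < 1 by norm_num)
  refine ⟨a ^ (-(m : ℝ)), by positivity, fun q hq => ?_⟩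
  rw [dist_πZ]
  refine lt_of_le_of_lt (dZ_le_of_agree ?_) hm
  by_contra hne
  push Not at hne
  obtain ⟨j, hj, hne'⟩ := hne
  have hpq : q ≠ p := fun h => hne' (by rw [h])
  obtain ⟨n, h1, h2⟩ := exists_first_diff hpq
  have h3 : n ≤ j := by
    by_contra hlt
    push Not at hlt
    exact hne' (h1 j hlt)
  have h4 : dist q p = a ^ (-(n : ℝ)) := vd_of_first h1 h2
  rw [h4] at hq
  have h5 : a ^ (-(m : ℝ)) ≤ a ^ (-(n : ℝ)) := by
    apply Real.rpow_le_rpow_of_exponent_le ha.le
    have : (n : ℝ) ≤ m := by exact_mod_cast (by omega : n ≤ m)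
    linarith
  linarith

/-- Orbit points of `z0` converge. -/
lemma orbit_z0 {w : ℕ → FreeGroup (Fin 3)} {p : Bdy 3} (hw : TendsTo w p) :
    Tendsto (fun k => w k • z0) atTop (𝓝 (πZ p)) := by
  rw [Metric.tendsto_atTop]
  intro ε hε
  obtain ⟨K, hK⟩ := exists_pow_lt_of_lt_one hε (show (1 / 2 : ℝ) < 1 by norm_num)
  obtain ⟨N, hN⟩ := hw K
  refine ⟨N, fun k hk => ?_⟩
  obtain ⟨u, hu⟩ : ∃ u : Bool, ∀ x ∈ (w k).toWord.getLast?, Ok x ((0 : Fin 3), u) := by
    cases h : (w k).toWord.getLast? with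
    | none => exact ⟨true, by simp⟩
    | some y =>
      refine ⟨y.2, ?_⟩
      intro x hx
      simp at hx
      subst hx
      intro _
      rfl
  have e : z0 = πZ (cst (0, u)) := (z0_eq (fun n => by rw [cst_apply]; simp)).symm
  rw [e, πZ_smul, dist_πZ]
  refine lt_of_le_of_lt (dZ_le_of_agree ?_) hK
  intro j hj
  have h1 := hN k hk
  have h2 := h1.length_le
  rw [length_preL] at h2
  rw [smul_prefix (w k) _ (by rw [cst_apply]; exact hu) j (by omega)]
  rw [List.prefix_iff_eq_take, length_preL] at h1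
  have h3 : (preL p K)[j]? = some (p.1 j) := by simp [preL, hj]
  rw [h1, List.getElem?_take_of_lt hj, List.getElem?_eq_getElem (by omega)] at h3
  exact Option.some.inj h3

instance : CompactSpace Z := by
  constructor
  have h := (isCompact_univ (X := BZ)).image SeparationQuotient.continuous_mk
  rwa [Set.image_univ, SeparationQuotient.range_mk] at h

/-- The action on distinct triples is properly discontinuous. -/
theorem triples_pd (K : Set (Z × Z × Z)) (hK : IsCompact K)
    (hKd : ∀ t ∈ K, t.1 ≠ t.2.1 ∧ t.2.1 ≠ t.2.2 ∧ t.1 ≠ t.2.2) :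
    {g : FreeGroup (Fin 3) | ∃ t ∈ K, g • t ∈ K}.Finite := by
  by_contra hinf
  have hinf' : {g : FreeGroup (Fin 3) | ∃ t ∈ K, g • t ∈ K}.Infinite := hinf
  -- uniform separation on K
  obtain ⟨ε, hε, hεK⟩ : ∃ ε : ℝ, 0 < ε ∧ ∀ t ∈ K, ε ≤ dist t.1 t.2.1 ∧ ε ≤ dist t.2.1 t.2.2 ∧
      ε ≤ dist t.1 t.2.2 := by
    rcases K.eq_empty_or_nonempty with hKe | hKne
    · exact ⟨1, one_pos, fun t ht => by rw [hKe] at ht; exact absurd ht (by simp)⟩
    obtain ⟨t0, ht0, hmin⟩ := hK.exists_isMinOn hKne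
      (f := fun t : Z × Z × Z => min (dist t.1 t.2.1) (min (dist t.2.1 t.2.2) (dist t.1 t.2.2)))
      (by fun_prop)
    obtain ⟨a1, a2, a3⟩ := hKd t0 ht0
    refine ⟨_, lt_min (dist_pos.2 a1) (lt_min (dist_pos.2 a2) (dist_pos.2 a3)), fun t ht => ?_⟩
    have := hmin ht
    simp only [Set.mem_setOf_eq] at this
    exact ⟨this.trans (min_le_left _ _),
      this.trans ((min_le_right _ _).trans (min_le_left _ _)),
      this.trans ((min_le_right _ _).trans (min_le_right _ _))⟩
  obtain ⟨γ, hγ, hγK⟩ : ∃ γ : ℕ → FreeGroup (Fin 3), Function.Injective γ ∧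
      ∀ n, ∃ t ∈ K, γ n • t ∈ K := by
    have e := hinf'.natEmbedding
    exact ⟨fun n => (e n).1, fun m n h => e.injective (Subtype.ext h), fun n => (e n).2⟩
  obtain ⟨φ, _, c, b, hconv⟩ := conv_action γ hγ
  have hC : IsCompact {x : Z | ε / 2 ≤ dist x b} :=
    (isClosed_le continuous_const (continuous_id.dist continuous_const)).isCompact
  have hb : b ∉ {x : Z | ε / 2 ≤ dist x b} := by
    simp only [Set.mem_setOf_eq, dist_self, not_le]
    linarith
  obtain ⟨n, hn⟩ := (hconv _ hC hb _ (Metric.ball_mem_nhds c (half_pos hε))).exists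
  obtain ⟨⟨x, y, z⟩, ht, hgt⟩ := hγK (φ n)
  obtain ⟨s1, s2, s3⟩ := hεK _ ht
  obtain ⟨u1, u2, u3⟩ := hεK _ hgt
  simp only at s1 s2 s3
  change ε ≤ dist (γ (φ n) • x) (γ (φ n) • y) at u1
  change ε ≤ dist (γ (φ n) • y) (γ (φ n) • z) at u2
  change ε ≤ dist (γ (φ n) • x) (γ (φ n) • z) at u3
  have key : ∀ u v : Z, ε ≤ dist (γ (φ n) • u) (γ (φ n) • v) → ¬ (ε / 2 ≤ dist u b ∧
      ε / 2 ≤ dist v b) := by
    rintro u v h ⟨h1, h2⟩
    have a1 : dist (γ (φ n) • u) c < ε / 2 := hn u h1
    have a2 : dist (γ (φ n) • v) c < ε / 2 := hn v h2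
    have a3 := dist_triangle_right (γ (φ n) • u) (γ (φ n) • v) c
    linarith
  have k1 := key _ _ u1
  have k2 := key _ _ u2
  have k3 := key _ _ u3
  have d1 := dist_triangle_right x y b
  have d2 := dist_triangle_right y z b
  have d3 := dist_triangle_right x z b
  by_cases hx : ε / 2 ≤ dist x b
  · have hy : ¬ ε / 2 ≤ dist y b := fun h => k1 ⟨hx, h⟩
    have hz : ¬ ε / 2 ≤ dist z b := fun h => k3 ⟨hx, h⟩
    push Not at hy hz
    linarith
  · by_cases hy : ε / 2 ≤ dist y b
    · have hz : ¬ ε / 2 ≤ dist z b := fun h => k2 ⟨hy, h⟩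
      push Not at hx hz
      linarith
    · push Not at hx hy
      linarith

end Pool.Agent.X185.CT
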