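import Pool.Agent.X185.RH.Act

set_option autoImplicit false

/-! The boundary of `(F_3, ⟨a, b⟩)` as a separation quotient of `∂F_3`. -/

namespace Pool.Agent.X185.CT

open Filter Topology

/-- The words `p` and `q` are separated at `n` by a letter `c` or its inverse. -/
def Sp (p q : Bdy 3) (n : ℕ) : Prop :=
  ((p.1 n).1 = 2 ∨ (q.1 n).1 = 2) ∧ ¬ ∀ j ≤ n, p.1 j = q.1 j

lemma Sp.symm {p q : Bdy 3} {n : ℕ} (h : Sp p q n) : Sp q p n :=
  ⟨h.1.symm, fun H => h.2 (fun j hj => (H j hj).symm)⟩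

lemma sp_ultra {p q s : Bdy 3} {m : ℕ} (h1 : ∀ n < m, ¬ Sp p q n) (h2 : ∀ n < m, ¬ Sp q s n) :
    ∀ n < m, ¬ Sp p s n := by
  have key : ∀ {p q s : Bdy 3} {n : ℕ}, ¬ Sp p q n → ¬ Sp q s n → (p.1 n).1 = 2 →
      ∀ j ≤ n, p.1 j = s.1 j := by
    intro p q s n a b hp
    have h3 : ∀ j ≤ n, p.1 j = q.1 j := by
      by_contra hne
      exact a ⟨Or.inl hp, hne⟩
    have h4 : ∀ j ≤ n, q.1 j = s.1 j := by
      by_contra hne
      exact b ⟨Or.inl (by rw [← h3 n le_rfl]; exact hp), hne⟩
    intro j hj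
    rw [h3 j hj, h4 j hj]
  intro n hn hs
  rcases hs.1 with hp | hp
  · exact hs.2 (key (h1 n hn) (h2 n hn) hp)
  · apply hs.2
    intro j hj
    have a : ¬ Sp s q n := fun h => h2 n hn h.symm
    have b : ¬ Sp q p n := fun h => h1 n hn h.symm
    exact (key a b hp j hj).symm

open Classical in
/-- The pseudometric. -/
noncomputable def dZ (p q : Bdy 3) : ℝ :=
  if h : ∃ n, Sp p q n then (1 / 2 : ℝ) ^ (Nat.find h) else 0

lemma dZ_nonneg (p q : Bdy 3) : 0 ≤ dZ p q := by
  unfold dZ
  split_ifs <;> positivity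

lemma dZ_le_iff (p q : Bdy 3) (m : ℕ) : dZ p q ≤ (1 / 2 : ℝ) ^ m ↔ ∀ n < m, ¬ Sp p q n := by
  classical
  unfold dZ
  split_ifs with h
  · constructor
    · intro hle n hn hs
      have h1 : m ≤ Nat.find h := by
        by_contra hlt
        push Not at hlt
        have : (1 / 2 : ℝ) ^ m < (1 / 2 : ℝ) ^ (Nat.find h) :=
          pow_lt_pow_right_of_lt_one₀ (by norm_num) (by norm_num) hlt
        linarith
      exact Nat.find_min h (lt_of_lt_of_le hn h1) hs
    · intro H
      apply pow_le_pow_of_le_one (by norm_num) (by norm_num)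
      by_contra hlt
      push Not at hlt
      exact H _ hlt (Nat.find_spec h)
  · constructor
    · intro _ n _ hs
      exact h ⟨n, hs⟩
    · intro _; positivity

lemma dZ_cases (p q : Bdy 3) : dZ p q = 0 ∨ ∃ m, dZ p q = (1 / 2 : ℝ) ^ m := by
  classical
  unfold dZ
  split_ifs with h
  · exact Or.inr ⟨_, rfl⟩
  · exact Or.inl rfl

lemma dZ_eq_zero_iff (p q : Bdy 3) : dZ p q = 0 ↔ ∀ n, ¬ Sp p q n := by
  constructor
  · intro h n hs
    have := (dZ_le_iff p q (n + 1)).1 (by rw [h]; positivity) n (by omega)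
    exact this hs
  · intro h
    unfold dZ
    rw [dif_neg]
    push Not
    exact h

lemma dZ_ultra (p q s : Bdy 3) : dZ p s ≤ max (dZ p q) (dZ q s) := by
  rcases dZ_cases p q with h1 | ⟨m1, h1⟩ <;> rcases dZ_cases q s with h2 | ⟨m2, h2⟩
  · have : dZ p s = 0 := (dZ_eq_zero_iff _ _).2 (fun n =>
      sp_ultra (m := n + 1) (fun k _ => (dZ_eq_zero_iff _ _).1 h1 k)
        (fun k _ => (dZ_eq_zero_iff _ _).1 h2 k) n (by omega))
    rw [this, h1, h2]; simp
  · refine le_trans ?_ (le_max_right _ _)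
    rw [h2, dZ_le_iff]
    exact sp_ultra (fun k _ => (dZ_eq_zero_iff _ _).1 h1 k) ((dZ_le_iff _ _ _).1 h2.le)
  · refine le_trans ?_ (le_max_left _ _)
    rw [h1, dZ_le_iff]
    exact sp_ultra ((dZ_le_iff _ _ _).1 h1.le) (fun k _ => (dZ_eq_zero_iff _ _).1 h2 k)
  · have h3 : max (dZ p q) (dZ q s) = (1 / 2 : ℝ) ^ (min m1 m2) := by
      rw [h1, h2]
      rcases le_total m1 m2 with h | h
      · rw [min_eq_left h, max_eq_left]
        exact pow_le_pow_of_le_one (by norm_num) (by norm_num) h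
      · rw [min_eq_right h, max_eq_right]
        exact pow_le_pow_of_le_one (by norm_num) (by norm_num) h
    rw [h3, dZ_le_iff]
    exact sp_ultra (fun k hk => (dZ_le_iff _ _ _).1 h1.le k (by omega))
      (fun k hk => (dZ_le_iff _ _ _).1 h2.le k (by omega))

lemma dZ_comm (p q : Bdy 3) : dZ p q = dZ q p := by
  have key : ∀ p q : Bdy 3, dZ p q ≤ dZ q p := by
    intro p q
    rcases dZ_cases q p with h | ⟨m, h⟩
    · rw [h]
      have := (dZ_eq_zero_iff p q).2 (fun n hs => (dZ_eq_zero_iff _ _).1 h n hs.symm)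
      exact this.le
    · rw [h, dZ_le_iff]
      exact fun n hn hs => (dZ_le_iff _ _ _).1 h.le n hn hs.symm
  exact le_antisymm (key p q) (key q p)

lemma dZ_self (p : Bdy 3) : dZ p p = 0 := by
  rw [dZ_eq_zero_iff]
  intro n hs
  exact hs.2 (fun _ _ => rfl)

/-- `∂F_3` with the pseudometric `dZ`. -/
def BZ : Type := Bdy 3

/-- Identity. -/
def toBZ (p : Bdy 3) : BZ := p
/-- Identity. -/
def ofBZ (p : BZ) : Bdy 3 := p

noncomputable instance : PseudoMetricSpace BZ where
  dist p q := dZ p q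
  dist_self := dZ_self
  dist_comm := dZ_comm
  dist_triangle p q s := by
    have h := dZ_ultra p q s
    have h1 := dZ_nonneg p q
    have h2 := dZ_nonneg q s
    rcases le_max_iff.1 h with h' | h' <;> linarith

noncomputable instance : MulAction (FreeGroup (Fin 3)) BZ :=
  inferInstanceAs (MulAction (FreeGroup (Fin 3)) (Bdy 3))

lemma dist_BZ (p q : BZ) : dist p q = dZ p q := rfl

lemma sp_a1 (x : Fin 3 × Bool) (p q : Bdy 3) (m : ℕ) (h : ∀ n < m + 1, ¬ Sp p q n) :
    ∀ n < m, ¬ Sp (a1 x p) (a1 x q) n := by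
  have mixed : ∀ p q : Bdy 3, (∀ n < m + 1, ¬ Sp p q n) → ∀ (hp : Ok x (p.1 0)),
      ¬ Ok x (q.1 0) → ∀ n < m, ¬ Sp (cn x p hp) (tl q) n := by
    intro p q h hp hq n hn hs
    have hq0 := not_ok_iff.1 hq
    have hne : p.1 0 ≠ q.1 0 := by
      intro he
      rw [he] at hp
      exact hq hp
    have hnc : ∀ k < m + 1, (p.1 k).1 ≠ 2 ∧ (q.1 k).1 ≠ 2 := by
      intro k hk
      have h1 := h k hk
      constructor
      · intro h2
        exact h1 ⟨Or.inl h2, fun H => hne (H 0 (Nat.zero_le _))⟩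
      · intro h2
        exact h1 ⟨Or.inr h2, fun H => hne (H 0 (Nat.zero_le _))⟩
    rcases hs.1 with h2 | h2
    · cases n with
      | zero =>
        rw [cn_zero] at h2
        have := (hnc 0 (by omega)).2
        rw [hq0] at this
        exact this h2
      | succ n =>
        rw [cn_succ] at h2
        exact (hnc n (by omega)).1 h2
    · rw [tl_apply] at h2
      exact (hnc (n + 1) (by omega)).2 h2
  intro n hn hs
  by_cases hp : Ok x (p.1 0)
  · by_cases hq : Ok x (q.1 0)
    · rw [a1_ok hp, a1_ok hq] at hs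
      cases n with
      | zero =>
        apply hs.2
        intro j hj
        have : j = 0 := by omega
        subst this
        rfl
      | succ n =>
        apply h n (by omega)
        refine ⟨hs.1, fun H => hs.2 (fun j hj => ?_)⟩
        cases j with
        | zero => rfl
        | succ j => exact H j (by omega)
    · rw [a1_ok hp, a1_not hq] at hs
      exact mixed p q h hp hq n hn hs
  · by_cases hq : Ok x (q.1 0)
    · rw [a1_not hp, a1_ok hq] at hs
      exact mixed q p (fun k hk hs => h k hk hs.symm) hq hp n hn hs.symm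
    · rw [a1_not hp, a1_not hq] at hs
      apply h (n + 1) (by omega)
      refine ⟨hs.1, fun H => hs.2 (fun j hj => H (j + 1) (by omega))⟩

lemma dZ_a1 (x : Fin 3 × Bool) (p q : Bdy 3) : dZ (a1 x p) (a1 x q) ≤ 2 * dZ p q := by
  rcases dZ_cases p q with h | ⟨m, h⟩
  · have h1 : dZ (a1 x p) (a1 x q) = 0 := by
      rw [dZ_eq_zero_iff]
      intro n
      exact sp_a1 x p q (n + 1) (fun k _ => (dZ_eq_zero_iff _ _).1 h k) n (by omega)
    rw [h1, h]; simp
  · cases m with
    | zero =>
      rw [h]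
      have : dZ (a1 x p) (a1 x q) ≤ (1 / 2 : ℝ) ^ 0 := (dZ_le_iff _ _ _).2 (by omega)
      simp at this ⊢
      linarith
    | succ m =>
      have h1 : dZ (a1 x p) (a1 x q) ≤ (1 / 2 : ℝ) ^ m :=
        (dZ_le_iff _ _ _).2 (sp_a1 x p q m ((dZ_le_iff _ _ _).1 h.le))
      rw [h, pow_succ]
      linarith

/-- The action of a letter on `BZ`. -/
noncomputable def a1Z (x : Fin 3 × Bool) (p : BZ) : BZ := a1 x p

lemma continuous_a1 (x : Fin 3 × Bool) : Continuous (a1Z x) := by
  have : LipschitzWith 2 (a1Z x) := by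
    apply LipschitzWith.of_dist_le_mul
    intro p q
    exact dZ_a1 x p q
  exact this.continuous

instance : ContinuousConstSMul (FreeGroup (Fin 3)) BZ where
  continuous_const_smul g := by
    obtain ⟨L, rfl⟩ := Quot.exists_rep g
    change Continuous (fun p : BZ => (FreeGroup.mk L • p : BZ))
    induction L with
    | nil =>
      have : FreeGroup.mk ([] : List (Fin 3 × Bool)) = 1 := rfl
      rw [this]
      simp only [one_smul]
      exact continuous_id
    | cons x L ih =>
      have : (fun p : BZ => (FreeGroup.mk (x :: L) • p : BZ)) =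
          (a1Z x) ∘ (fun p : BZ => (FreeGroup.mk L • p : BZ)) := by
        funext p
        exact smul_mk_cons x L p
      rw [this]
      exact (continuous_a1 x).comp ih

/-- Agreement of the first letters bounds the distance. -/
lemma dZ_le_of_agree {p q : Bdy 3} {m : ℕ} (h : ∀ j < m, p.1 j = q.1 j) :
    dZ p q ≤ (1 / 2 : ℝ) ^ m := by
  rw [dZ_le_iff]
  intro n hn hs
  exact hs.2 (fun j hj => h j (by omega))

lemma agree_of_prefix {r : ℕ} {p q : Bdy r} {K m : ℕ} (h : preL p K <+: preL q m) :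
    ∀ j < K, p.1 j = q.1 j := by
  intro j hj
  have hlen := h.length_le
  simp only [length_preL] at hlen
  rw [List.prefix_iff_eq_take] at h
  have h1 : (preL p K)[j]? = (List.take (preL p K).length (preL q m))[j]? := by rw [← h]
  rw [length_preL, List.getElem?_take_of_lt hj] at h1
  have hjm : j < m := by omega
  simpa [preL, hj, hjm] using h1

instance : CompactSpace BZ := by
  rw [compactSpace_iff_seqCompactSpace]
  constructor
  intro p _
  obtain ⟨P, ψ, hψ, hlim⟩ := exists_limit_word (r := 3) (fun k => preL (ofBZ (p k)) k)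
    (fun k => by rw [length_preL]) (fun k => preL_reduced _ _)
  refine ⟨toBZ P, trivial, ψ, hψ, ?_⟩
  refine Metric.tendsto_atTop.2 ?_
  intro ε hε
  obtain ⟨K, hK⟩ := exists_pow_lt_of_lt_one hε (show (1 / 2 : ℝ) < 1 by norm_num)
  obtain ⟨N, hN⟩ := hlim K
  refine ⟨N, fun k hk => ?_⟩
  have h1 := agree_of_prefix (hN k hk)
  have h2 : dZ (ofBZ (p (ψ k))) P ≤ (1 / 2 : ℝ) ^ K :=
    dZ_le_of_agree (fun j hj => (h1 j hj).symm)
  exact lt_of_le_of_lt h2 hK

/-- The space `Z`: the separation quotient. -/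
abbrev Z : Type := SeparationQuotient BZ

/-- The quotient map `∂F_3 → Z`. -/
noncomputable def πZ (p : Bdy 3) : Z := SeparationQuotient.mk (toBZ p)

lemma πZ_smul (g : FreeGroup (Fin 3)) (p : Bdy 3) : g • πZ p = πZ (g • p) := rfl

lemma dist_πZ (p q : Bdy 3) : dist (πZ p) (πZ q) = dZ p q := rfl

lemma πZ_surj : Function.Surjective πZ := by
  intro z
  obtain ⟨p, hp⟩ := SeparationQuotient.surjective_mk (X := BZ) z
  exact ⟨ofBZ p, hp⟩

lemma πZ_eq (p q : Bdy 3) : πZ p = πZ q ↔ ∀ n, ¬ Sp p q n := by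
  rw [← dist_eq_zero, dist_πZ, dZ_eq_zero_iff]

end Pool.Agent.X185.CT
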